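import Mathlib

/-!
# MP_130e73_co: real domination roots of paths and cycles are not dense in `[-2, 0]`

There is a nondegenerate interval `[a, b] ⊆ [-2, 0]` on which no domination polynomial of a path `P_n` or
a cycle `C_n` with `n ≥ 4` vanishes (both families at once).
-/

set_option autoImplicit false

open Polynomial Filter Topology

namespace Pool.Agent.Results.MP_130e73_co.NotDense

/-- `S` is a dominating set of `G`: every vertex outside `S` has a neighbour in `S`. -/
def IsDominating {n : ℕ} (G : SimpleGraph (Fin n)) (S : Finset (Fin n)) : Prop :=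
  ∀ v, v ∉ S → ∃ u ∈ S, G.Adj v u

/-- `d(G, i)`: the number of dominating sets of `G` with exactly `i` elements. -/
noncomputable def numDom {n : ℕ} (G : SimpleGraph (Fin n)) (i : ℕ) : ℕ :=
  {S : Finset (Fin n) | IsDominating G S ∧ S.card = i}.ncard

/-- The domination polynomial `D(G, x) = ∑_{i=1}^{n} d(G, i) x^i`. -/
noncomputable def domPoly {n : ℕ} (G : SimpleGraph (Fin n)) : ℝ[X] :=
  ∑ i ∈ Finset.Icc 1 n, (numDom G i : ℝ[X]) * X ^ i

/-- `R_P`: real roots of `D(P_n, x)`, `n ≥ 4`. -/
def RP : Set ℝ := {r | ∃ n : ℕ, 4 ≤ n ∧ (domPoly (SimpleGraph.pathGraph n)).eval r = 0}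

/-- `R_C`: real roots of `D(C_n, x)`, `n ≥ 4`. -/
def RC : Set ℝ := {r | ∃ n : ℕ, 4 ≤ n ∧ (domPoly (SimpleGraph.cycleGraph n)).eval r = 0}

/-! ### From the polynomial to a weighted sum over 0/1 words -/

/-- weight of a letter -/
def w (x : ℝ) (b : Bool) : ℝ := if b then x else 1

/-- Scan of a word. `p`: the previous vertex is chosen; `q`: the previous vertex is dominated so far;
`e`: the vertex after the last one is chosen. -/
def chk (p q e : Bool) : List Bool → Bool
  | [] => q || e
  | c :: l => (q || c) && chk c (c || p) e l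

theorem chk_iff (e : Bool) (l : List Bool) : ∀ (p q : Bool), chk p q e l = true ↔
    (q = true ∨ l.getD 0 e = true) ∧ ∀ i, i < l.length →
      ((p :: l).getD i false = true ∨ l.getD i false = true ∨ l.getD (i + 1) e = true) := by
  induction l with
  | nil => intro p q; simp [chk]
  | cons c t ih =>
    intro p q
    rw [chk, Bool.and_eq_true, ih]
    constructor
    · rintro ⟨h1, h2, h3⟩
      refine ⟨by simpa using h1, ?_⟩
      intro i hi
      rcases i with _ | j
      · have h2' : (c = true ∨ p = true) ∨ t.getD 0 e = true := by simpa using h2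
        rcases h2' with (h | h) | h
        · right; left; simpa using h
        · left; simpa using h
        · right; right; simpa using h
      · have := h3 j (by simpa using hi)
        simpa using this
    · rintro ⟨h1, h2⟩
      refine ⟨by simpa using h1, ?_, ?_⟩
      · have := h2 0 (by simp)
        have h3 : p = true ∨ c = true ∨ t.getD 0 e = true := by simpa using this
        rcases h3 with h | h | h
        · left; simp [h]
        · left; simp [h]
        · right; exact h
      · intro i hi
        have := h2 (i + 1) (by simpa using hi)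
        simpa using this

/-- Weighted count of the words accepted by the scan, weighted also by `φ` of the last letter. -/
noncomputable def K (x : ℝ) (φ : Bool → ℝ) (e p q : Bool) (n : ℕ) : ℝ :=
  ∑ s : Fin n → Bool, if chk p q e (List.ofFn s) = true then
    (∏ i, w x (s i)) * φ ((List.ofFn s).getLastD p) else 0

theorem K_zero (x : ℝ) (φ : Bool → ℝ) (e p q : Bool) :
    K x φ e p q 0 = if (q || e) = true then φ p else 0 := by
  simp [K, chk]

theorem K_succ (x : ℝ) (φ : Bool → ℝ) (e p q : Bool) (n : ℕ) :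
    K x φ e p q (n + 1) = x * K x φ e true true n + (if q = true then K x φ e false p n else 0) := by
  unfold K
  rw [← (Fin.consEquiv (fun _ : Fin (n + 1) => Bool)).sum_comp, Fintype.sum_prod_type]
  rw [Fintype.sum_bool]
  have hl : ∀ (c : Bool) (s : Fin n → Bool),
      List.ofFn (Fin.consEquiv (fun _ : Fin (n + 1) => Bool) (c, s)) = c :: List.ofFn s := by
    intro c s
    simp [Fin.consEquiv, List.ofFn_succ]
  have hp : ∀ (c : Bool) (s : Fin n → Bool),
      ∏ i, w x (Fin.consEquiv (fun _ : Fin (n + 1) => Bool) (c, s) i) = w x c * ∏ i, w x (s i) := by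
    intro c s
    rw [Fin.prod_univ_succ]
    simp [Fin.consEquiv]
  have hlast : ∀ (c : Bool) (l : List Bool), (c :: l).getLastD p = l.getLastD c := by
    intro c l
    cases l <;> simp [List.getLastD]
  congr 1
  · rw [Finset.mul_sum]
    apply Finset.sum_congr rfl
    intro s _
    rw [hl, hp, hlast]
    simp only [chk, Bool.or_true, Bool.true_and, Bool.true_or]
    split_ifs
    · simp [w]; ring
    · simp
  · by_cases hq : q = true
    · rw [if_pos hq]
      apply Finset.sum_congr rfl
      intro s _
      rw [hl, hp, hlast]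
      simp only [chk, hq, Bool.true_or, Bool.true_and, Bool.false_or]
      split_ifs
      · simp [w]
      · rfl
    · rw [if_neg hq]
      apply Finset.sum_eq_zero
      intro s _
      rw [hl]
      simp [chk, hq]

/-- The domination polynomial as a sum over all sets. -/
theorem eval_domPoly {n : ℕ} (hn : 1 ≤ n) (G : SimpleGraph (Fin n)) (x : ℝ) :
    (domPoly G).eval x = ∑ s : Fin n → Bool,
      open Classical in
      if IsDominating G (Finset.univ.filter fun i => s i = true) then ∏ i, w x (s i) else 0 := by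
  classical
  unfold domPoly
  rw [Polynomial.eval_finsetSum]
  simp only [Polynomial.eval_mul, Polynomial.eval_natCast, Polynomial.eval_pow, Polynomial.eval_X]
  have h1 : ∀ i, (numDom G i : ℝ) = ((Finset.univ.filter
      fun S : Finset (Fin n) => IsDominating G S ∧ S.card = i).card : ℝ) := by
    intro i
    unfold numDom
    rw [← Set.ncard_coe_finset]
    congr 2
    ext S
    simp
  have h2 : ∀ i, (numDom G i : ℝ) * x ^ i = ∑ S : Finset (Fin n),
      if IsDominating G S ∧ S.card = i then x ^ S.card else 0 := by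
    intro i
    rw [h1, ← Finset.sum_filter, Finset.sum_congr rfl (g := fun _ => x ^ i)]
    · simp
    · intro S hS
      rw [(Finset.mem_filter.1 hS).2.2]
  simp only [h2]
  rw [Finset.sum_comm]
  have h3 : ∀ S : Finset (Fin n), (∑ i ∈ Finset.Icc 1 n,
      if IsDominating G S ∧ S.card = i then x ^ S.card else 0) =
      if IsDominating G S then x ^ S.card else 0 := by
    intro S
    by_cases hS : IsDominating G S
    · rw [if_pos hS]
      have hpos : 1 ≤ S.card := by
        rw [Nat.one_le_iff_ne_zero, Finset.card_ne_zero]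
        by_contra hne
        rw [Finset.not_nonempty_iff_eq_empty] at hne
        subst hne
        obtain ⟨u, hu, _⟩ := hS ⟨0, hn⟩ (by simp)
        simp at hu
      have hle : S.card ≤ n := by simpa using S.card_le_univ
      rw [Finset.sum_eq_single S.card]
      · simp [hS]
      · intro b _ hb
        rw [if_neg]
        rintro ⟨_, h⟩
        exact hb h.symm
      · intro h
        exact absurd (Finset.mem_Icc.2 ⟨hpos, hle⟩) h
    · rw [if_neg hS]
      apply Finset.sum_eq_zero
      intro i _
      rw [if_neg]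
      exact fun h => hS h.1
  simp only [h3]
  symm
  refine Finset.sum_bij' (fun s _ => Finset.univ.filter fun i => s i = true)
    (fun S _ => fun i => decide (i ∈ S)) (by simp) (by simp) ?_ ?_ ?_
  · intro s _; funext i; simp
  · intro S _; ext i; simp
  · intro s _
    have : ∏ i, w x (s i) = x ^ (Finset.univ.filter fun i => s i = true).card := by
      unfold w
      rw [← Finset.prod_filter_mul_prod_filter_not Finset.univ (fun i => s i = true)]
      rw [Finset.prod_congr rfl (g := fun _ => x), Finset.prod_const]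
      · rw [Finset.prod_eq_one, mul_one]
        intro i hi
        simp [(Finset.mem_filter.1 hi).2]
      · intro i hi
        simp [(Finset.mem_filter.1 hi).2]
    rw [this]


theorem getD_ofFn {n : ℕ} (s : Fin n → Bool) (i : ℕ) (d : Bool) (h : i < n) :
    (List.ofFn s).getD i d = s ⟨i, h⟩ := by
  simp [List.getD, h]

theorem getD_ofFn' {n : ℕ} (s : Fin n → Bool) (i : ℕ) (d : Bool) (h : n ≤ i) :
    (List.ofFn s).getD i d = d := by
  simp [List.getD, h]

theorem path_iff {n : ℕ} (s : Fin n → Bool) :
    IsDominating (SimpleGraph.pathGraph n) (Finset.univ.filter fun i => s i = true) ↔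
      chk false true false (List.ofFn s) = true := by
  rw [chk_iff]
  constructor
  · intro h
    refine ⟨Or.inl rfl, ?_⟩
    intro i hi
    rw [List.length_ofFn] at hi
    rw [getD_ofFn s i false hi]
    by_cases hs : s ⟨i, hi⟩ = true
    · right; left; exact hs
    · obtain ⟨u, hu, hadj⟩ := h ⟨i, hi⟩ (by simpa using hs)
      have hu' : s u = true := by simpa using hu
      rw [SimpleGraph.pathGraph_adj] at hadj
      rcases hadj with hadj | hadj
      · right; right
        simp only at hadj
        have hlt : i + 1 < n := by have := u.isLt; omega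
        rw [getD_ofFn s (i + 1) false hlt]
        have : (⟨i + 1, hlt⟩ : Fin n) = u := Fin.ext (by simpa using hadj)
        rw [this]; exact hu'
      · left
        simp only at hadj
        obtain ⟨j, rfl⟩ : ∃ j, i = j + 1 := ⟨u.val, by omega⟩
        have hlt : j < n := by omega
        rw [List.getD_cons_succ, getD_ofFn s j false hlt]
        have : (⟨j, hlt⟩ : Fin n) = u := Fin.ext (by simp only; omega)
        rw [this]; exact hu'
  · rintro ⟨_, h⟩ v hv
    have hv' : ¬ s v = true := by simpa using hv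
    have h1 := h v.val (by rw [List.length_ofFn]; exact v.isLt)
    rw [getD_ofFn s v.val false v.isLt] at h1
    rcases h1 with h1 | h1 | h1
    · obtain ⟨i, hi⟩ := v
      rcases i with _ | j
      · simp at h1
      · simp only [List.getD_cons_succ] at h1
        rw [getD_ofFn s j false (by omega)] at h1
        refine ⟨⟨j, by omega⟩, by simpa using h1, ?_⟩
        rw [SimpleGraph.pathGraph_adj]
        right; rfl
    · exact absurd h1 hv'
    · by_cases hlt : v.val + 1 < n
      · rw [getD_ofFn s _ false hlt] at h1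
        refine ⟨⟨v.val + 1, hlt⟩, by simpa using h1, ?_⟩
        rw [SimpleGraph.pathGraph_adj]
        left; rfl
      · rw [getD_ofFn' s _ false (by omega)] at h1
        simp at h1

theorem path_eval {n : ℕ} (hn : 1 ≤ n) (x : ℝ) :
    (domPoly (SimpleGraph.pathGraph n)).eval x = K x (fun _ => 1) false false true n := by
  classical
  rw [eval_domPoly hn]
  unfold K
  apply Finset.sum_congr rfl
  intro s _
  simp only [path_iff s, mul_one]

theorem cycle_adj {n : ℕ} (u v : Fin (n + 2)) : (SimpleGraph.cycleGraph (n + 2)).Adj u v ↔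
    u + 1 = v ∨ v + 1 = u := by
  rw [SimpleGraph.cycleGraph_adj]
  constructor
  · rintro (h | h)
    · right; rw [← h]; abel
    · left; rw [← h]; abel
  · rintro (h | h)
    · right; rw [← h]; abel
    · left; rw [← h]; abel

theorem getLastD_ofFn {n : ℕ} (s : Fin (n + 1) → Bool) (d : Bool) :
    (List.ofFn s).getLastD d = s (Fin.last n) := by
  have hne : List.ofFn s ≠ [] := mt List.ofFn_eq_nil_iff.1 (Nat.succ_ne_zero _)
  rw [List.getLastD_eq_getLast?, List.getLast?_eq_getLast_of_ne_nil hne, List.getLast_ofFn_succ]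
  rfl

theorem cycle_iff {n : ℕ} (c : Bool) (t : Fin (n + 1) → Bool) :
    IsDominating (SimpleGraph.cycleGraph (n + 2))
      (Finset.univ.filter fun i => (Fin.cons c t : Fin (n + 2) → Bool) i = true) ↔
      chk c (c || (List.ofFn t).getLastD c) c (List.ofFn t) = true := by
  set s : Fin (n + 2) → Bool := Fin.cons c t with hs
  have h0 : s 0 = c := rfl
  have hsucc : ∀ i : Fin (n + 1), s i.succ = t i := fun i => rfl
  have hlast : s (Fin.last (n + 1)) = t (Fin.last n) := rfl
  have hdom : IsDominating (SimpleGraph.cycleGraph (n + 2))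
      (Finset.univ.filter fun i => s i = true) ↔
      ∀ v : Fin (n + 2), s (v - 1) = true ∨ s v = true ∨ s (v + 1) = true := by
    constructor
    · intro h v
      by_cases hv : s v = true
      · exact Or.inr (Or.inl hv)
      · obtain ⟨u, hu, hadj⟩ := h v (by simpa using hv)
        have hu' : s u = true := by simpa using hu
        rw [cycle_adj] at hadj
        rcases hadj with rfl | hadj
        · exact Or.inr (Or.inr hu')
        · left
          rw [← hadj, add_sub_cancel_right]
          exact hu'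
    · intro h v hv
      have hv' : ¬ s v = true := by simpa using hv
      rcases h v with h1 | h1 | h1
      · refine ⟨v - 1, by simpa using h1, ?_⟩
        rw [cycle_adj]; right; rw [sub_add_cancel]
      · exact absurd h1 hv'
      · refine ⟨v + 1, by simpa using h1, ?_⟩
        rw [cycle_adj]; left; rfl
  rw [hdom, chk_iff, getLastD_ofFn]
  have hneg : (0 : Fin (n + 2)) - 1 = Fin.last (n + 1) := by
    rw [sub_eq_iff_eq_add]
    simp
  constructor
  · intro h
    constructor
    · have := h 0
      rw [hneg, hlast, h0, zero_add] at this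
      rcases this with h1 | h1 | h1
      · left; simp [h1]
      · left; simp [h1]
      · right
        rw [getD_ofFn t 0 c (by omega)]
        exact h1
    · intro i hi
      rw [List.length_ofFn] at hi
      have := h (Fin.succ ⟨i, hi⟩)
      rw [getD_ofFn t i false hi]
      have e1 : (Fin.succ ⟨i, hi⟩ : Fin (n + 2)) - 1 = Fin.castSucc ⟨i, hi⟩ := by
        rw [sub_eq_iff_eq_add, Fin.coeSucc_eq_succ]
      rw [e1, hsucc] at this
      rcases this with h1 | h1 | h1
      · left
        rcases i with _ | j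
        · simpa [s] using h1
        · rw [List.getD_cons_succ, getD_ofFn t j false (by omega)]
          exact h1
      · right; left; exact h1
      · right; right
        by_cases hlt : i + 1 < n + 1
        · rw [getD_ofFn t (i + 1) c hlt]
          have e2 : (Fin.succ ⟨i, hi⟩ : Fin (n + 2)) + 1 = Fin.succ ⟨i + 1, hlt⟩ := by
            apply Fin.ext
            rw [Fin.val_add_one]
            simp only [Fin.succ_mk, Fin.ext_iff, Fin.val_last]
            rw [if_neg (by omega)]
          rw [e2] at h1
          exact h1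
        · rw [getD_ofFn' t (i + 1) c (by omega)]
          have e2 : (Fin.succ ⟨i, hi⟩ : Fin (n + 2)) + 1 = 0 := by
            apply Fin.ext
            rw [Fin.val_add_one]
            simp only [Fin.succ_mk, Fin.ext_iff, Fin.val_last]
            rw [if_pos (by omega)]
            rfl
          rw [e2, h0] at h1
          exact h1
  · rintro ⟨h1, h2⟩ v
    refine Fin.cases ?_ ?_ v
    · rw [hneg, hlast, h0, zero_add]
      rcases h1 with h1 | h1
      · rw [Bool.or_eq_true] at h1
        tauto
      · rw [getD_ofFn t 0 c (by omega)] at h1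
        right; right; exact h1
    · rintro ⟨i, hi⟩
      have h3 := h2 i (by rw [List.length_ofFn]; exact hi)
      rw [getD_ofFn t i false hi] at h3
      have e1 : (Fin.succ ⟨i, hi⟩ : Fin (n + 2)) - 1 = Fin.castSucc ⟨i, hi⟩ := by
        rw [sub_eq_iff_eq_add, Fin.coeSucc_eq_succ]
      rw [e1, hsucc]
      rcases h3 with h3 | h3 | h3
      · left
        rcases i with _ | j
        · simpa [s] using h3
        · rw [List.getD_cons_succ, getD_ofFn t j false (by omega)] at h3
          exact h3
      · right; left; exact h3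
      · right; right
        by_cases hlt : i + 1 < n + 1
        · rw [getD_ofFn t (i + 1) c hlt] at h3
          have e2 : (Fin.succ ⟨i, hi⟩ : Fin (n + 2)) + 1 = Fin.succ ⟨i + 1, hlt⟩ := by
            apply Fin.ext
            rw [Fin.val_add_one]
            simp only [Fin.succ_mk, Fin.ext_iff, Fin.val_last]
            rw [if_neg (by omega)]
          rw [e2]
          exact h3
        · rw [getD_ofFn' t (i + 1) c (by omega)] at h3
          have e2 : (Fin.succ ⟨i, hi⟩ : Fin (n + 2)) + 1 = 0 := by
            apply Fin.ext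
            rw [Fin.val_add_one]
            simp only [Fin.succ_mk, Fin.ext_iff, Fin.val_last]
            rw [if_pos (by omega)]
            rfl
          rw [e2, h0]
          exact h3


/-- indicator weight -/
noncomputable def ind (a : Bool) (b : Bool) : ℝ := if b = a then 1 else 0

theorem cycle_eval (n : ℕ) (x : ℝ) :
    (domPoly (SimpleGraph.cycleGraph (n + 2))).eval x =
      x * (K x (ind true) true true true (n + 1) + K x (ind false) true true true (n + 1)) +
      (K x (ind true) false false true (n + 1) + K x (ind false) false false false (n + 1)) := by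
  classical
  rw [eval_domPoly (by omega)]
  rw [← (Fin.consEquiv (fun _ : Fin (n + 2) => Bool)).sum_comp, Fintype.sum_prod_type,
    Fintype.sum_bool]
  have hp : ∀ (c : Bool) (s : Fin (n + 1) → Bool),
      ∏ i, w x (Fin.consEquiv (fun _ : Fin (n + 2) => Bool) (c, s) i) = w x c * ∏ i, w x (s i) := by
    intro c s
    rw [Fin.prod_univ_succ]
    simp [Fin.consEquiv]
  have hmain : ∀ c : Bool, (∑ y : Fin (n + 1) → Bool,
      if IsDominating (SimpleGraph.cycleGraph (n + 2)) (Finset.univ.filter fun i =>
        (Fin.consEquiv (fun _ : Fin (n + 2) => Bool)) (c, y) i = true) then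
        ∏ i, w x ((Fin.consEquiv (fun _ : Fin (n + 2) => Bool)) (c, y) i) else 0) =
      w x c * (K x (ind true) c c true (n + 1) + K x (ind false) c c c (n + 1)) := by
    intro c
    unfold K
    rw [← Finset.sum_add_distrib, Finset.mul_sum]
    apply Finset.sum_congr rfl
    intro t _
    rw [hp]
    have hc := cycle_iff c t
    have e : (IsDominating (SimpleGraph.cycleGraph (n + 2)) (Finset.univ.filter fun i =>
        (Fin.consEquiv (fun _ : Fin (n + 2) => Bool)) (c, t) i = true)) ↔
        chk c (c || (List.ofFn t).getLastD c) c (List.ofFn t) = true := hc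
    rw [if_congr e rfl rfl]
    rcases hl : (List.ofFn t).getLastD c with _ | _
    · simp only [Bool.or_false, ind]
      simp
    · simp only [Bool.or_true, ind]
      simp
  rw [hmain true, hmain false]
  simp [w]


/-! ### The linear recurrence and the behaviour near `x = -19/10` -/

theorem K_cont (φ : Bool → ℝ) (e : Bool) (n : ℕ) : ∀ p q : Bool,
    Continuous fun x => K x φ e p q n := by
  induction n with
  | zero =>
    intro p q
    simp only [K_zero]
    exact continuous_const
  | succ n ih =>
    intro p q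
    simp only [K_succ]
    by_cases hq : q = true
    · simp only [hq, if_true]
      exact (continuous_id.mul (ih _ _)).add (ih _ _)
    · simp only [if_neg hq, add_zero]
      exact continuous_id.mul (ih _ _)

theorem K_rec (x : ℝ) (φ : Bool → ℝ) (e p q : Bool) (n : ℕ)
    (h : (p, q) = (true, true) ∨ (p, q) = (false, true) ∨ (p, q) = (false, false)) :
    K x φ e p q (n + 3) = x * (K x φ e p q (n + 2) + K x φ e p q (n + 1) + K x φ e p q n) := by
  rcases h with h | h | h <;> obtain ⟨rfl, rfl⟩ := Prod.mk.inj h <;>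
    simp only [K_succ, if_true, if_false, Bool.false_eq_true] <;> ring

/-- the values of the path polynomials -/
noncomputable def uP (x : ℝ) (n : ℕ) : ℝ := K x (fun _ => 1) false false true n

/-- the values of the cycle polynomials, `uC x n = D(C_{n+2}, x)` -/
noncomputable def uC (x : ℝ) (n : ℕ) : ℝ :=
  x * (K x (ind true) true true true (n + 1) + K x (ind false) true true true (n + 1)) +
      (K x (ind true) false false true (n + 1) + K x (ind false) false false false (n + 1))

theorem uP_cont (n : ℕ) : Continuous fun x => uP x n := K_cont _ _ _ _ _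

theorem uC_cont (n : ℕ) : Continuous fun x => uC x n :=
  (continuous_id.mul ((K_cont _ _ _ _ _).add (K_cont _ _ _ _ _))).add
    ((K_cont _ _ _ _ _).add (K_cont _ _ _ _ _))

theorem uP_rec (x : ℝ) (n : ℕ) : uP x (n + 3) = x * (uP x (n + 2) + uP x (n + 1) + uP x n) :=
  K_rec _ _ _ _ _ _ (by simp)

theorem uC_rec (x : ℝ) (n : ℕ) : uC x (n + 3) = x * (uC x (n + 2) + uC x (n + 1) + uC x n) := by
  unfold uC
  have e : n + 3 + 1 = (n + 1) + 3 := rfl
  rw [e, K_rec x (ind true) true true true (n + 1) (by simp),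
    K_rec x (ind false) true true true (n + 1) (by simp),
    K_rec x (ind true) false false true (n + 1) (by simp),
    K_rec x (ind false) false false false (n + 1) (by simp)]
  ring

theorem invariant (x : ℝ) (hx1 : -1.92 ≤ x) (hx2 : x ≤ -1.88) (u : ℕ → ℝ)
    (hrec : ∀ n, u (n + 3) = x * (u (n + 2) + u (n + 1) + u n)) (N : ℕ)
    (h0 : 0 < (-1) ^ N * u N)
    (h1 : 1.2 * ((-1) ^ N * u N) ≤ (-1) ^ (N + 1) * u (N + 1))
    (h2 : (-1) ^ (N + 1) * u (N + 1) ≤ 1.74 * ((-1) ^ N * u N))
    (h3 : 1.2 * ((-1) ^ (N + 1) * u (N + 1)) ≤ (-1) ^ (N + 2) * u (N + 2))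
    (h4 : (-1) ^ (N + 2) * u (N + 2) ≤ 1.74 * ((-1) ^ (N + 1) * u (N + 1))) :
    ∀ n, N ≤ n → u n ≠ 0 := by
  have key : ∀ k, 0 < (-1) ^ (N + k) * u (N + k) ∧
      1.2 * ((-1) ^ (N + k) * u (N + k)) ≤ (-1) ^ (N + k + 1) * u (N + k + 1) ∧
      (-1) ^ (N + k + 1) * u (N + k + 1) ≤ 1.74 * ((-1) ^ (N + k) * u (N + k)) ∧
      1.2 * ((-1) ^ (N + k + 1) * u (N + k + 1)) ≤ (-1) ^ (N + k + 2) * u (N + k + 2) ∧
      (-1) ^ (N + k + 2) * u (N + k + 2) ≤ 1.74 * ((-1) ^ (N + k + 1) * u (N + k + 1)) := by
    intro k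
    induction k with
    | zero => exact ⟨h0, h1, h2, h3, h4⟩
    | succ k ih =>
      obtain ⟨i0, i1, i2, i3, i4⟩ := ih
      have hr := hrec (N + k)
      set a := (-1) ^ (N + k) * u (N + k) with ha
      set b := (-1) ^ (N + k + 1) * u (N + k + 1) with hb
      set c := (-1) ^ (N + k + 2) * u (N + k + 2) with hc
      have hd : (-1) ^ (N + k + 3) * u (N + k + 3) = (-x) * (c - b + a) := by
        rw [hr, ha, hb, hc]
        have e1 : (-1 : ℝ) ^ (N + k + 1) = -(-1) ^ (N + k) := by rw [pow_succ]; ring
        have e2 : (-1 : ℝ) ^ (N + k + 2) = (-1) ^ (N + k) := by rw [pow_add]; ring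
        have e3 : (-1 : ℝ) ^ (N + k + 3) = -(-1) ^ (N + k) := by rw [pow_add]; ring
        rw [e1, e2, e3]
        ring
      have hb0 : 0 < b := by linarith
      have hc0 : 0 < c := by linarith
      have hup : c - b + a ≤ 0.9043 * c := by
        norm_num at i1 i2 i3 i4 ⊢
        linarith
      have hlo : 0.6455 * c ≤ c - b + a := by
        norm_num at i1 i2 i3 i4 ⊢
        linarith
      have hxpos : 0 < -x := by norm_num at hx2; linarith
      refine ⟨hb0, i3, i4, ?_, ?_⟩
      · have : 1.2 * c ≤ (-1) ^ (N + k + 3) * u (N + k + 3) := by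
          rw [hd]
          have h5 : 1.88 * (0.6455 * c) ≤ (-x) * (c - b + a) :=
            mul_le_mul (by linarith) hlo (by positivity) hxpos.le
          norm_num at h5 ⊢
          linarith
        exact this
      · have : (-1) ^ (N + k + 3) * u (N + k + 3) ≤ 1.74 * c := by
          rw [hd]
          have hpos : 0 ≤ c - b + a := le_trans (by positivity) hlo
          have h5 : (-x) * (c - b + a) ≤ 1.92 * (0.9043 * c) :=
            mul_le_mul (by linarith) hup hpos (by norm_num)
          norm_num at h5 ⊢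
          linarith
        exact this
  intro n hn hzero
  obtain ⟨k, rfl⟩ := Nat.exists_eq_add_of_le hn
  have := (key k).1
  rw [hzero, mul_zero] at this
  exact lt_irrefl _ this

/-- the evaluation point -/
noncomputable def x0 : ℝ := -19 / 10

theorem uP_0 (x : ℝ) : uP x 0 = 1 := by simp [uP, K_zero]

theorem uP_1 (x : ℝ) : uP x 1 = x := by simp [uP, K_zero, K_succ]

theorem uP_2 (x : ℝ) : uP x 2 = x ^ 2 + 2 * x := by
  simp [uP, K_zero, K_succ]; ring

theorem uC_0 (x : ℝ) : uC x 0 = x ^ 2 + 2 * x := by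
  simp [uC, K_zero, K_succ, ind]; ring

theorem uC_1 (x : ℝ) : uC x 1 = x ^ 3 + 3 * x ^ 2 + 3 * x := by
  simp [uC, K_zero, K_succ, ind]; ring

theorem uC_2 (x : ℝ) : uC x 2 = x ^ 4 + 4 * x ^ 3 + 6 * x ^ 2 := by
  simp [uC, K_zero, K_succ, ind]; ring

theorem uP_vals : uP x0 4 = (361 / 10000) ∧
    uP x0 5 = (-364249 / 100000) ∧
    uP x0 6 = (2917241 / 1000000) ∧
    uP x0 7 = (13093831 / 10000000) ∧
    uP x0 8 = (-110985479 / 100000000) ∧
    uP x0 9 = (-5921861689 / 1000000000) ∧
    uP x0 10 = (108724334201 / 10000000000) ∧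
    uP x0 11 = (-729736218809 / 100000000000) ∧
    uP x0 12 = (4458901868281 / 1000000000000) ∧
    uP x0 13 = (-152645488905529 / 10000000000000) ∧
    uP x0 14 = (3439571749968761 / 100000000000000) ∧
    uP x0 15 = (-44821133907089849 / 1000000000000000) ∧
    uP x0 16 = (488109340661147641 / 10000000000000000) ∧
    uP x0 17 = (-7293248355155379769 / 100000000000000000) ∧
    uP x0 18 = (130991098445804876921 / 1000000000000000000) ∧
    uP x0 19 = (-2030521430246951023289 / 10000000000000000000) ∧
    uP x0 20 = (27548770344784364388601 / 100000000000000000000) := by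
  have h0 : uP x0 0 = (1) := uP_0 x0
  have h1 : uP x0 1 = (-19 / 10) := by rw [uP_1, x0]
  have h2 : uP x0 2 = (-19 / 100) := by rw [uP_2, x0]; norm_num
  have h3 : uP x0 3 = (2071 / 1000) := by
    have r : uP x0 3 = x0 * (uP x0 2 + uP x0 1 + uP x0 0) := uP_rec x0 0
    rw [r, h2, h1, h0, x0]; norm_num
  have h4 : uP x0 4 = (361 / 10000) := by
    have r : uP x0 4 = x0 * (uP x0 3 + uP x0 2 + uP x0 1) := uP_rec x0 1
    rw [r, h3, h2, h1, x0]; norm_num
  have h5 : uP x0 5 = (-364249 / 100000) := by
    have r : uP x0 5 = x0 * (uP x0 4 + uP x0 3 + uP x0 2) := uP_rec x0 2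
    rw [r, h4, h3, h2, x0]; norm_num
  have h6 : uP x0 6 = (2917241 / 1000000) := by
    have r : uP x0 6 = x0 * (uP x0 5 + uP x0 4 + uP x0 3) := uP_rec x0 3
    rw [r, h5, h4, h3, x0]; norm_num
  have h7 : uP x0 7 = (13093831 / 10000000) := by
    have r : uP x0 7 = x0 * (uP x0 6 + uP x0 5 + uP x0 4) := uP_rec x0 4
    rw [r, h6, h5, h4, x0]; norm_num
  have h8 : uP x0 8 = (-110985479 / 100000000) := by
    have r : uP x0 8 = x0 * (uP x0 7 + uP x0 6 + uP x0 5) := uP_rec x0 5
    rw [r, h7, h6, h5, x0]; norm_num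
  have h9 : uP x0 9 = (-5921861689 / 1000000000) := by
    have r : uP x0 9 = x0 * (uP x0 8 + uP x0 7 + uP x0 6) := uP_rec x0 6
    rw [r, h8, h7, h6, x0]; norm_num
  have h10 : uP x0 10 = (108724334201 / 10000000000) := by
    have r : uP x0 10 = x0 * (uP x0 9 + uP x0 8 + uP x0 7) := uP_rec x0 7
    rw [r, h9, h8, h7, x0]; norm_num
  have h11 : uP x0 11 = (-729736218809 / 100000000000) := by
    have r : uP x0 11 = x0 * (uP x0 10 + uP x0 9 + uP x0 8) := uP_rec x0 8
    rw [r, h10, h9, h8, x0]; norm_num
  have h12 : uP x0 12 = (4458901868281 / 1000000000000) := by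
    have r : uP x0 12 = x0 * (uP x0 11 + uP x0 10 + uP x0 9) := uP_rec x0 9
    rw [r, h11, h10, h9, x0]; norm_num
  have h13 : uP x0 13 = (-152645488905529 / 10000000000000) := by
    have r : uP x0 13 = x0 * (uP x0 12 + uP x0 11 + uP x0 10) := uP_rec x0 10
    rw [r, h12, h11, h10, x0]; norm_num
  have h14 : uP x0 14 = (3439571749968761 / 100000000000000) := by
    have r : uP x0 14 = x0 * (uP x0 13 + uP x0 12 + uP x0 11) := uP_rec x0 11
    rw [r, h13, h12, h11, x0]; norm_num
  have h15 : uP x0 15 = (-44821133907089849 / 1000000000000000) := by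
    have r : uP x0 15 = x0 * (uP x0 14 + uP x0 13 + uP x0 12) := uP_rec x0 12
    rw [r, h14, h13, h12, x0]; norm_num
  have h16 : uP x0 16 = (488109340661147641 / 10000000000000000) := by
    have r : uP x0 16 = x0 * (uP x0 15 + uP x0 14 + uP x0 13) := uP_rec x0 13
    rw [r, h15, h14, h13, x0]; norm_num
  have h17 : uP x0 17 = (-7293248355155379769 / 100000000000000000) := by
    have r : uP x0 17 = x0 * (uP x0 16 + uP x0 15 + uP x0 14) := uP_rec x0 14
    rw [r, h16, h15, h14, x0]; norm_num
  have h18 : uP x0 18 = (130991098445804876921 / 1000000000000000000) := by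
    have r : uP x0 18 = x0 * (uP x0 17 + uP x0 16 + uP x0 15) := uP_rec x0 15
    rw [r, h17, h16, h15, x0]; norm_num
  have h19 : uP x0 19 = (-2030521430246951023289 / 10000000000000000000) := by
    have r : uP x0 19 = x0 * (uP x0 18 + uP x0 17 + uP x0 16) := uP_rec x0 16
    rw [r, h18, h17, h16, x0]; norm_num
  have h20 : uP x0 20 = (27548770344784364388601 / 100000000000000000000) := by
    have r : uP x0 20 = x0 * (uP x0 19 + uP x0 18 + uP x0 17) := uP_rec x0 17
    rw [r, h19, h18, h17, x0]; norm_num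
  exact ⟨h4, h5, h6, h7, h8, h9, h10, h11, h12, h13, h14, h15, h16, h17, h18, h19, h20⟩

theorem uC_vals : uC x0 2 = (72561 / 10000) ∧
    uC x0 3 = (-1014049 / 100000) ∧
    uC x0 4 = (8765441 / 1000000) ∧
    uC x0 5 = (-111739969 / 10000000) ∧
    uC x0 6 = (2384318721 / 100000000) ∧
    uC x0 7 = (-40725799489 / 1000000000) ∧
    uC x0 8 = (533075574401 / 10000000000) := by
  have h0 : uC x0 0 = (-19 / 100) := by rw [uC_0, x0]; norm_num
  have h1 : uC x0 1 = (-1729 / 1000) := by rw [uC_1, x0]; norm_num
  have h2 : uC x0 2 = (72561 / 10000) := by rw [uC_2, x0]; norm_num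
  have h3 : uC x0 3 = (-1014049 / 100000) := by
    have r : uC x0 3 = x0 * (uC x0 2 + uC x0 1 + uC x0 0) := uC_rec x0 0
    rw [r, h2, h1, h0, x0]; norm_num
  have h4 : uC x0 4 = (8765441 / 1000000) := by
    have r : uC x0 4 = x0 * (uC x0 3 + uC x0 2 + uC x0 1) := uC_rec x0 1
    rw [r, h3, h2, h1, x0]; norm_num
  have h5 : uC x0 5 = (-111739969 / 10000000) := by
    have r : uC x0 5 = x0 * (uC x0 4 + uC x0 3 + uC x0 2) := uC_rec x0 2
    rw [r, h4, h3, h2, x0]; norm_num
  have h6 : uC x0 6 = (2384318721 / 100000000) := by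
    have r : uC x0 6 = x0 * (uC x0 5 + uC x0 4 + uC x0 3) := uC_rec x0 3
    rw [r, h5, h4, h3, x0]; norm_num
  have h7 : uC x0 7 = (-40725799489 / 1000000000) := by
    have r : uC x0 7 = x0 * (uC x0 6 + uC x0 5 + uC x0 4) := uC_rec x0 4
    rw [r, h6, h5, h4, x0]; norm_num
  have h8 : uC x0 8 = (533075574401 / 10000000000) := by
    have r : uC x0 8 = x0 * (uC x0 7 + uC x0 6 + uC x0 5) := uC_rec x0 5
    rw [r, h7, h6, h5, x0]; norm_num
  exact ⟨h2, h3, h4, h5, h6, h7, h8⟩

theorem lt_nhds {f g : ℝ → ℝ} (hf : Continuous f) (hg : Continuous g) (h : f x0 < g x0) :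
    ∀ᶠ x in 𝓝 x0, f x < g x := (isOpen_lt hf hg).mem_nhds h

theorem ne_nhds {f : ℝ → ℝ} (hf : Continuous f) (h : f x0 ≠ 0) : ∀ᶠ x in 𝓝 x0, f x ≠ 0 :=
  hf.continuousAt.eventually_ne h

theorem range_nhds : ∀ᶠ x in 𝓝 x0, -1.92 ≤ x ∧ x ≤ -1.88 := by
  have : Set.Icc (-1.92 : ℝ) (-1.88) ∈ 𝓝 x0 := by
    apply Icc_mem_nhds <;> norm_num [x0]
  exact this

/-- A sequence of continuous functions satisfying the recurrence, with nonzero values at `x0` up to
index `N` and growth ratios in `(1.2, 1.74)` at `N`, has no zeros near `x0`. -/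
theorem eventually_ne (u : ℝ → ℕ → ℝ) (hc : ∀ n, Continuous fun x => u x n)
    (hrec : ∀ x n, u x (n + 3) = x * (u x (n + 2) + u x (n + 1) + u x n)) (m N : ℕ)
    (hne : ∀ n, m ≤ n → n < N → u x0 n ≠ 0)
    (h0 : 0 < (-1) ^ N * u x0 N)
    (h1 : 1.2 * ((-1) ^ N * u x0 N) < (-1) ^ (N + 1) * u x0 (N + 1))
    (h2 : (-1) ^ (N + 1) * u x0 (N + 1) < 1.74 * ((-1) ^ N * u x0 N))
    (h3 : 1.2 * ((-1) ^ (N + 1) * u x0 (N + 1)) < (-1) ^ (N + 2) * u x0 (N + 2))
    (h4 : (-1) ^ (N + 2) * u x0 (N + 2) < 1.74 * ((-1) ^ (N + 1) * u x0 (N + 1))) :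
    ∀ᶠ x in 𝓝 x0, ∀ n, m ≤ n → u x n ≠ 0 := by
  have hcm : ∀ n, Continuous fun x => (-1 : ℝ) ^ n * u x n := fun n => continuous_const.mul (hc n)
  have hcm2 : ∀ (c : ℝ) n, Continuous fun x => c * ((-1 : ℝ) ^ n * u x n) :=
    fun c n => continuous_const.mul (hcm n)
  have hfin : ∀ᶠ x in 𝓝 x0, ∀ n ∈ Finset.range N, m ≤ n → u x n ≠ 0 := by
    rw [Finset.eventually_all]
    intro n hn
    by_cases hmn : m ≤ n
    · filter_upwards [ne_nhds (hc n) (hne n hmn (Finset.mem_range.1 hn))] with x hx _
      exact hx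
    · exact Filter.Eventually.of_forall fun x h => absurd h hmn
  filter_upwards [range_nhds, hfin, lt_nhds continuous_const (hcm N) h0,
    lt_nhds (hcm2 1.2 N) (hcm (N + 1)) h1, lt_nhds (hcm (N + 1)) (hcm2 1.74 N) h2,
    lt_nhds (hcm2 1.2 (N + 1)) (hcm (N + 2)) h3, lt_nhds (hcm (N + 2)) (hcm2 1.74 (N + 1)) h4]
    with x hx hf a0 a1 a2 a3 a4 n hmn
  rcases Nat.lt_or_ge n N with h | h
  · exact hf n (Finset.mem_range.2 h) hmn
  · exact invariant x hx.1 hx.2 (u x) (hrec x) N a0 a1.le a2.le a3.le a4.le n h

theorem path_nhds : ∀ᶠ x in 𝓝 x0, ∀ n, 4 ≤ n → uP x n ≠ 0 := by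
  obtain ⟨h4, h5, h6, h7, h8, h9, h10, h11, h12, h13, h14, h15, h16, h17, h18, h19, h20⟩ := uP_vals
  refine eventually_ne uP uP_cont uP_rec 4 18 ?_ ?_ ?_ ?_ ?_ ?_
  · intro n hn hn'
    interval_cases n
    · rw [h4]; norm_num
    · rw [h5]; norm_num
    · rw [h6]; norm_num
    · rw [h7]; norm_num
    · rw [h8]; norm_num
    · rw [h9]; norm_num
    · rw [h10]; norm_num
    · rw [h11]; norm_num
    · rw [h12]; norm_num
    · rw [h13]; norm_num
    · rw [h14]; norm_num
    · rw [h15]; norm_num
    · rw [h16]; norm_num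
    · rw [h17]; norm_num
  · rw [h18]; norm_num
  · rw [h18, h19]; norm_num
  · rw [h18, h19]; norm_num
  · rw [h19, h20]; norm_num
  · rw [h19, h20]; norm_num

theorem cycle_nhds : ∀ᶠ x in 𝓝 x0, ∀ n, 2 ≤ n → uC x n ≠ 0 := by
  obtain ⟨h2, h3, h4, h5, h6, h7, h8⟩ := uC_vals
  refine eventually_ne uC uC_cont uC_rec 2 6 ?_ ?_ ?_ ?_ ?_ ?_
  · intro n hn hn'
    interval_cases n
    · rw [h2]; norm_num
    · rw [h3]; norm_num
    · rw [h4]; norm_num
    · rw [h5]; norm_num
  · rw [h6]; norm_num
  · rw [h6, h7]; norm_num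
  · rw [h6, h7]; norm_num
  · rw [h7, h8]; norm_num
  · rw [h7, h8]; norm_num

/-- There is a nondegenerate interval `[a, b] ⊆ [-2, 0]` containing no real root of `D(P_n, x)` and no real
root of `D(C_n, x)` for any `n ≥ 4`. -/
theorem result : ∃ a b : ℝ, -2 ≤ a ∧ a < b ∧ b ≤ 0 ∧
    (∀ r ∈ Set.Icc a b, r ∉ RP) ∧ (∀ r ∈ Set.Icc a b, r ∉ RC) := by
  obtain ⟨ε, hε, h⟩ := Metric.eventually_nhds_iff.1 (path_nhds.and cycle_nhds)
  have hb : x0 + min (ε / 2) 1 ≤ 0 := by
    have : min (ε / 2) 1 ≤ 1 := min_le_right _ _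
    unfold x0; linarith
  have hmem : ∀ r ∈ Set.Icc x0 (x0 + min (ε / 2) 1), dist r x0 < ε := by
    rintro r ⟨h1, h2⟩
    have : min (ε / 2) 1 ≤ ε / 2 := min_le_left _ _
    rw [Real.dist_eq, abs_of_nonneg (by linarith)]
    linarith
  refine ⟨x0, x0 + min (ε / 2) 1, by norm_num [x0], ?_, hb, ?_, ?_⟩
  · have : 0 < min (ε / 2) 1 := lt_min (by linarith) one_pos
    linarith
  · rintro r hr ⟨n, hn, hz⟩
    rw [path_eval (by omega)] at hz
    exact (h (hmem r hr)).1 n hn hz
  · rintro r hr ⟨n, hn, hz⟩
    obtain ⟨m, rfl⟩ : ∃ m, n = m + 2 := ⟨n - 2, by omega⟩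
    rw [cycle_eval] at hz
    exact (h (hmem r hr)).2 m (by omega) hz

end Pool.Agent.Results.MP_130e73_co.NotDense
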